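import Pool.Agent.H47.ALLH.Stmts
import Pool.Agent.H10.ABY.Stmts

set_option autoImplicit false

namespace Pool.ALLH

open Finset Pool.Agent.H98.ABCR Pool.SHA

private theorem st_card_fact (S : Finset ℕ) (hS : ∀ q ∈ S, 1 ≤ q) :
    S.card.factorial ≤ ∏ q ∈ S, q := by
  induction S using Finset.induction_on_max with
  | empty => simp
  | insert a s hs ih =>
    have ha : a ∉ s := fun h => lt_irrefl _ (hs a h)
    rw [Finset.card_insert_of_notMem ha, Finset.prod_insert ha, Nat.factorial_succ]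
    refine Nat.mul_le_mul ?_ (ih fun q hq => hS q (mem_insert_of_mem hq))
    have h1 : s ⊆ Icc 1 (a - 1) := by
      intro x hx
      have h2 := hs x hx
      have h3 := hS x (mem_insert_of_mem hx)
      rw [mem_Icc]
      omega
    have h4 := card_le_card h1
    rw [Nat.card_Icc] at h4
    have h5 := hS a (mem_insert_self _ _)
    omega

private theorem st_log_half {x : ℝ} (hx : 0 < x) : Real.log x ≤ x / 2 := by
  have h1 : 0 < Real.sqrt x := Real.sqrt_pos.2 hx
  have h2 := Real.log_le_sub_one_of_pos h1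
  have h3 : Real.log x = 2 * Real.log (Real.sqrt x) := by
    rw [Real.log_sqrt hx.le]
    ring
  have h4 : Real.sqrt x * Real.sqrt x = x := Real.mul_self_sqrt hx.le
  nlinarith [sq_nonneg (Real.sqrt x - 2)]

private theorem st_fact_log {w : ℕ} {X : ℝ} (h : (w.factorial : ℝ) ≤ X) :
    (w : ℝ) * (Real.log w - 1) ≤ Real.log X := by
  rcases Nat.eq_zero_or_pos w with rfl | hw
  · simp only [Nat.factorial_zero, Nat.cast_one] at h
    simpa using Real.log_nonneg h
  · have hw' : (0 : ℝ) < w := by exact_mod_cast hw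
    have h1 := Real.pow_div_factorial_le_exp (w : ℝ) hw'.le w
    have hf : (0 : ℝ) < w.factorial := by exact_mod_cast w.factorial_pos
    have h2 : ((w : ℝ) ^ w) ≤ Real.exp w * X := by
      rw [div_le_iff₀ hf] at h1
      exact h1.trans (mul_le_mul_of_nonneg_left h (Real.exp_pos _).le)
    have hX : 0 < X := lt_of_lt_of_le hf h
    have h3 := Real.log_le_log (by positivity) h2
    rw [Real.log_pow, Real.log_mul (Real.exp_pos _).ne' hX.ne', Real.log_exp] at h3
    linarith

private theorem st_w_le {w : ℕ} {X : ℝ} (h : (w.factorial : ℝ) ≤ X) {L : ℝ}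
    (hL : L = Real.log (Real.log X)) (hL4 : 4 ≤ L) (hl : 0 < Real.log X) :
    (w : ℝ) ≤ 4 * Real.log X / L := by
  by_contra hcon
  push Not at hcon
  set l := Real.log X with hl_def
  have h1 := st_fact_log h
  rw [← hl_def] at h1
  have hL0 : 0 < L := by linarith
  have hw0 : (0 : ℝ) < w := lt_trans (by positivity) hcon
  have h2 : L / 2 ≤ Real.log w := by
    have h3 : Real.log (4 * l / L) ≤ Real.log w := Real.log_le_log (by positivity) hcon.le
    rw [Real.log_div (by positivity) hL0.ne', Real.log_mul (by norm_num) hl.ne', ← hL] at h3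
    have h4 := st_log_half hL0
    have h5 : 0 ≤ Real.log 4 := Real.log_nonneg (by norm_num)
    linarith
  have h6 : L / 4 ≤ Real.log w - 1 := by linarith
  have h7 : (w : ℝ) * (L / 4) ≤ l := (mul_le_mul_of_nonneg_left h6 hw0.le).trans h1
  rw [div_lt_iff₀ hL0] at hcon
  nlinarith

/-- `C ^ (w + 1)` is small if `w!` is at most `X` -/
private theorem st_pow (C ε : ℝ) (hC : 1 ≤ C) (hε : 0 < ε) : ∃ X0 : ℝ, 3 ≤ X0 ∧
    ∀ X : ℝ, X0 ≤ X → ∀ w : ℕ, (w.factorial : ℝ) ≤ X → C ^ (w + 1) ≤ X ^ ε := by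
  set T : ℝ := 4 + 8 * Real.log C / ε with hT
  have hlC : 0 ≤ Real.log C := Real.log_nonneg hC
  have t2 : 0 ≤ 8 * Real.log C / ε := by positivity
  refine ⟨Real.exp (Real.exp T) + 3, by linarith [Real.exp_pos (Real.exp T)], ?_⟩
  intro X hX w hw
  have hXe : Real.exp (Real.exp T) ≤ X := by linarith
  have hX0 : 0 < X := lt_of_lt_of_le (Real.exp_pos _) hXe
  set l := Real.log X with hl
  have hlT : Real.exp T ≤ l := by
    rw [hl, Real.le_log_iff_exp_le hX0]
    exact hXe
  have hl0 : 0 < l := lt_of_lt_of_le (Real.exp_pos _) hlT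
  have hTl : T ≤ l := by linarith [Real.add_one_le_exp T]
  set L := Real.log l with hL
  have hLT : T ≤ L := by
    rw [hL, Real.le_log_iff_exp_le hl0]
    exact hlT
  have hL4 : 4 ≤ L := by linarith
  have hL0 : 0 < L := by linarith
  have hC0 : 0 < C := by linarith
  rw [Real.rpow_def_of_pos hX0, ← Real.rpow_natCast, Real.rpow_def_of_pos hC0]
  refine Real.exp_le_exp.2 ?_
  push_cast
  have h1 : (w : ℝ) * T ≤ 4 * l := by
    have h2 := st_w_le hw (by rw [hL, hl]) hL4 hl0
    rw [le_div_iff₀ hL0] at h2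
    nlinarith [Nat.cast_nonneg (α := ℝ) w]
  have h3 : 8 * Real.log C ≤ T * ε := by
    rw [← div_le_iff₀ hε]
    linarith
  have h4 : (w : ℝ) * (8 * Real.log C) ≤ 4 * l * ε := by
    calc (w : ℝ) * (8 * Real.log C) ≤ w * (T * ε) :=
          mul_le_mul_of_nonneg_left h3 (Nat.cast_nonneg _)
      _ = (w * T) * ε := by ring
      _ ≤ 4 * l * ε := mul_le_mul_of_nonneg_right h1 hε.le
  have h5 : 8 * Real.log C ≤ l * ε := h3.trans (mul_le_mul_of_nonneg_right hTl hε.le)
  nlinarith

private theorem st_log12 (ε : ℝ) (hε : 0 < ε) : ∃ X0 : ℝ, 3 ≤ X0 ∧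
    ∀ X : ℝ, X0 ≤ X → Real.log X ^ 12 ≤ X ^ ε := by
  set a : ℝ := ε / 24 with ha
  have ha0 : 0 < a := by positivity
  refine ⟨(1 / a ^ 12) ^ (2 / ε) + 3, by
    have : 0 ≤ (1 / a ^ 12) ^ (2 / ε) := by positivity
    linarith, ?_⟩
  intro X hX
  have h0 : 0 ≤ (1 / a ^ 12) ^ (2 / ε) := by positivity
  have hX1 : 1 ≤ X := by linarith
  have hX0 : 0 < X := by linarith
  have h1 := Real.log_le_rpow_div hX0.le ha0
  have h2 : Real.log X ^ 12 ≤ (X ^ a / a) ^ 12 := pow_le_pow_left₀ (Real.log_nonneg hX1) h1 12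
  have h3 : (X ^ a / a) ^ 12 = X ^ (ε / 2) * (1 / a ^ 12) := by
    rw [div_pow, ← Real.rpow_natCast (X ^ a) 12, ← Real.rpow_mul hX0.le]
    rw [show a * ((12 : ℕ) : ℝ) = ε / 2 by rw [ha]; push_cast; ring]
    ring
  have h4 : 1 / a ^ 12 ≤ X ^ (ε / 2) := by
    have h5 : ((1 / a ^ 12) ^ (2 / ε)) ^ (ε / 2) ≤ X ^ (ε / 2) :=
      Real.rpow_le_rpow h0 (by linarith) (by positivity)
    rw [← Real.rpow_mul (by positivity)] at h5
    rw [show 2 / ε * (ε / 2) = 1 by field_simp, Real.rpow_one] at h5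
    exact h5
  calc Real.log X ^ 12 ≤ X ^ (ε / 2) * (1 / a ^ 12) := h3 ▸ h2
    _ ≤ X ^ (ε / 2) * X ^ (ε / 2) := mul_le_mul_of_nonneg_left h4 (by positivity)
    _ = X ^ ε := by rw [← Real.rpow_add hX0]; ring_nf

private theorem st_coord_pos {v : ℕ × ℕ} (hv : IsTri v) (s : Fin 3) : 0 < coord v s := by
  obtain ⟨h1, h2, h3⟩ := hv
  fin_cases s <;> simp [coord] <;> omega

private theorem st_kl_le {v : ℕ × ℕ} (hv : IsTri v) (K : Finset ℕ) (i : Fin 3)
    (hK : ∀ q ∈ K, q.Prime) : kl K (coord v i) ≤ hh v := by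
  have hp := st_coord_pos hv i
  have h1 : kl K (coord v i) ≤ Real.log (coord v i) := by
    unfold kl
    have h2 : ∏ q ∈ K, q ^ (coord v i).factorization q ∣ coord v i := by
      have h3 : ∏ q ∈ K, q ^ (coord v i).factorization q =
          ∏ q ∈ K ∩ (coord v i).primeFactors, q ^ (coord v i).factorization q := by
        symm
        refine Finset.prod_subset inter_subset_left ?_
        intro q hq hq2
        have : q ∉ (coord v i).primeFactors := fun h => hq2 (mem_inter.2 ⟨hq, h⟩)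
        rw [← Nat.support_factorization, Finsupp.notMem_support_iff] at this
        rw [this, pow_zero]
      rw [h3]
      have h4 : ∏ q ∈ (coord v i).primeFactors, q ^ (coord v i).factorization q = coord v i :=
        Nat.prod_factorization_pow_eq_self hp.ne'
      calc ∏ q ∈ K ∩ (coord v i).primeFactors, q ^ (coord v i).factorization q ∣
            ∏ q ∈ (coord v i).primeFactors, q ^ (coord v i).factorization q :=
            Finset.prod_dvd_prod_of_subset _ _ _ inter_subset_right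
        _ = coord v i := h4
    have h5 := Nat.le_of_dvd hp h2
    have h6 : Real.log ((∏ q ∈ K, q ^ (coord v i).factorization q : ℕ) : ℝ) =
        ∑ q ∈ K, ((coord v i).factorization q : ℝ) * Real.log q := by
      rw [Nat.cast_prod, Real.log_prod (fun q hq => by
        have := (hK q hq).pos
        positivity)]
      refine Finset.sum_congr rfl fun q _ => ?_
      rw [Nat.cast_pow, Real.log_pow]
    rw [← h6]
    refine Real.log_le_log ?_ (by exact_mod_cast h5)
    have : 0 < ∏ q ∈ K, q ^ (coord v i).factorization q :=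
      Finset.prod_pos fun q hq => pow_pos (hK q hq).pos _
    exact_mod_cast this
  refine h1.trans ?_
  unfold hh
  refine Real.log_le_log (by exact_mod_cast hp) ?_
  have : coord v i ≤ v.1 + v.2 := by
    fin_cases i <;> simp [coord]
  exact_mod_cast this

private theorem st_nn_coord (v : ℕ × ℕ) (s : Fin 3) : coord v s ∣ nn v := by
  unfold nn
  fin_cases s
  · exact Dvd.intro (v.2 * (v.1 + v.2)) (by simp [coord, mul_assoc])
  · exact Dvd.intro (v.1 * (v.1 + v.2)) (by simp only [coord]; simp; ring)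
  · exact Dvd.intro (v.1 * v.2) (by simp only [coord]; simp; ring)

theorem star_thm (h1 : S_STH) (h2 : S_CEL) : Pool.ABY.S_STAR := by
  classical
  intro δ ε hδ hε
  set δ1 : ℝ := min δ 1 with hδ1
  have hδ10 : 0 < δ1 := lt_min hδ one_pos
  have hδ11 : δ1 ≤ 1 := min_le_right _ _
  obtain ⟨C, hC, hcel⟩ := h2 δ1 hδ10 hδ11
  obtain ⟨X1, hX1, hsth⟩ := h1 (δ1 / 2) (by positivity) (by linarith)
  obtain ⟨X2, hX2, hpow⟩ := st_pow C (ε / 2) hC (by positivity)
  obtain ⟨X3, hX3, hlog⟩ := st_log12 (ε / 2) (by positivity)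
  refine ⟨8, X1 + X2 + X3, by norm_num, by linarith, ?_⟩
  intro X h0 K i Q hX hh0 hQ
  have hXa : X1 ≤ X := by linarith
  have hXb : X2 ≤ X := by linarith
  have hXc : X3 ≤ X := by linarith
  have hXpos : 0 < X := by linarith
  rw [show (8 : ℝ) = ((8 : ℕ) : ℝ) by norm_num, Real.rpow_natCast] at hh0
  rcases Q.eq_empty_or_nonempty with rfl | ⟨r0, hr0⟩
  · simp only [card_empty, Nat.cast_zero]
    positivity
  have hlogX : 0 < Real.log X := Real.log_pos (by linarith)
  have hh0' : 0 < h0 := lt_of_lt_of_le (by positivity) hh0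
  have hK : ∀ q ∈ K, q.Prime := by
    obtain ⟨-, -, v, hv, -, -, -, h6, -⟩ := hQ r0 hr0
    exact fun q hq => (Nat.mem_primeFactors.1 (h6 hq)).1
  have hKX : ((∏ q ∈ K, q : ℕ) : ℝ) ≤ X := by
    obtain ⟨-, -, v, hv, h4, -, -, h6, -⟩ := hQ r0 hr0
    refine le_trans ?_ h4
    have h7 : ∏ q ∈ K, q ≤ RR v := by
      unfold RR rad
      exact Finset.prod_le_prod_of_subset_of_one_le' h6 fun q hq _ =>
        (Nat.mem_primeFactors.1 hq).1.one_lt.le
    exact_mod_cast h7
  have hKf : (K.card.factorial : ℝ) ≤ X := by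
    refine le_trans ?_ hKX
    exact_mod_cast st_card_fact K fun q hq => (hK q hq).one_lt.le
  obtain ⟨Xs, hXs, hcell⟩ := hcel K h0 hK hh0'
  -- the class of a cell
  set P : (ℕ → ℕ) → ℕ → Prop := fun x r => δ1 / 2 * h0 ≤ ∑ t ∈ K, (x t : ℝ) * Real.log t ∧
    ∃ s1 v, SolV h0 K x i s1 r v with hP
  have hcov : Q ⊆ Xs.biUnion (fun x => Q.filter (fun r => P x r)) := by
    intro r hr
    obtain ⟨hrp, hrK, v, hv, h4, h5, h5', h6, h7, ⟨s1, hs1, hs1r⟩, h9⟩ := hQ r hr
    have e1 : δ1 * h0 ≤ ∑ t ∈ K, ((coord v i).factorization t : ℝ) * Real.log t := by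
      refine le_trans ?_ h7
      exact mul_le_mul_of_nonneg_right (min_le_left _ _) hh0'.le
    have e2 : ∑ t ∈ K, ((coord v i).factorization t : ℝ) * Real.log t ≤ 2 * h0 :=
      (st_kl_le hv K i hK).trans h5'
    obtain ⟨x, hx, hxf, hxw⟩ := hcell (fun t => (coord v i).factorization t) e1 e2
    rw [mem_biUnion]
    refine ⟨x, hx, mem_filter.2 ⟨hr, hxw, s1, v, ?_⟩⟩
    refine ⟨hv, h5, h5', hs1, hs1r, ?_, ?_⟩
    · intro s hs q hq
      rw [mem_insert]
      rcases h9 s hs q hq with h | h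
      · exact Or.inr h
      · exact Or.inl h
    · intro t ht
      exact (pow_dvd_pow t (hxf t ht)).trans (Nat.ordProj_dvd _ _)
  have hone : ∀ x ∈ Xs, ((Q.filter (fun r => P x r)).card : ℝ) ≤ Real.log X ^ 12 := by
    intro x _
    rcases (Q.filter (fun r => P x r)).eq_empty_or_nonempty with hemp | ⟨r, hr⟩
    · rw [hemp]
      simp only [card_empty, Nat.cast_zero]
      positivity
    refine hsth X h0 K x i _ hXa hh0 ⟨hK, hKX, (mem_filter.1 hr).2.1, ?_⟩
    intro r' hr'
    rw [mem_filter] at hr'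
    obtain ⟨hr'Q, -, s1, v, hsol⟩ := hr'
    obtain ⟨hrp, hrK, v', hv', h4', -, -, -, -, ⟨s', hs', hs'r⟩, -⟩ := hQ r' hr'Q
    refine ⟨hrp, hrK, ?_, s1, v, hsol⟩
    have h5 : r' ∈ (nn v').primeFactors := by
      refine Nat.mem_primeFactors.2 ⟨hrp, ?_, ?_⟩
      · refine hs'r.trans ?_
        have : coord v' s' ∣ nn v' := st_nn_coord v' s'
        exact this
      · unfold nn
        have := hv'.1
        have := hv'.2.1
        positivity
    have h6 : r' ≤ RR v' := by
      unfold RR rad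
      exact Finset.single_le_prod' (f := fun q : ℕ => q)
        (fun q hq => (Nat.mem_primeFactors.1 hq).1.one_lt.le) h5
    exact le_trans (by exact_mod_cast h6) h4'
  have hfin : (Q.card : ℝ) ≤ (Xs.card : ℝ) * Real.log X ^ 12 := by
    calc (Q.card : ℝ) ≤ ((Xs.biUnion (fun x => Q.filter (fun r => P x r))).card : ℝ) := by
          exact_mod_cast card_le_card hcov
      _ ≤ ∑ x ∈ Xs, ((Q.filter (fun r => P x r)).card : ℝ) := by
          exact_mod_cast card_biUnion_le
      _ ≤ ∑ _x ∈ Xs, Real.log X ^ 12 := Finset.sum_le_sum hone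
      _ = (Xs.card : ℝ) * Real.log X ^ 12 := by rw [sum_const, nsmul_eq_mul]
  calc (Q.card : ℝ) ≤ (Xs.card : ℝ) * Real.log X ^ 12 := hfin
    _ ≤ X ^ (ε / 2) * X ^ (ε / 2) := by
        refine mul_le_mul (hXs.trans (hpow X hXb _ hKf)) (hlog X hXc) (by positivity)
          (by positivity)
    _ = X ^ ε := by rw [← Real.rpow_add hXpos]; ring_nf

end Pool.ALLH
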