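import Pool.Agent.H45.SHA.Stmts

/-!
# ALLH: abc triples by radical, all heights, all numbers of prime factors: the sharp exponent 2/3

Definitions and the statements of the modules.  Proofs in words: `/team-store/ALLH_PLAN_helper47.md`.
Module `XXX` is a theorem `xxx_thm (h1 : S_AAA) ... : S_XXX` in `Pool/Agent/H<k>/ALLH/XXX.lean`
(import this file, namespace `Pool.ALLH`).
-/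

set_option autoImplicit false

namespace Pool.ALLH

open Finset Polynomial Pool.Agent.H98.ABCR Pool.SHA

/-! ## Part A: approximations to `τ ^ (z0 / g)` (the core is `H85STAR.core_thm`) -/

/-- the common hypotheses: `τ = Nt / Dt` is `1` modulo `t ^ m t`, `w = W1 / W2` is `1` modulo `t`,
and `τ ^ z0 w ^ g` is `1` modulo `t ^ x t`, for all `t ∈ T` -/
structure Apx (g z0 : ℕ) (T : Finset ℕ) (x m : ℕ → ℕ) (Nt Dt W1 W2 : ℕ) : Prop where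
  N0 : 0 < Nt
  D0 : 0 < Dt
  W10 : 0 < W1
  W20 : 0 < W2
  ne : Nt ≠ Dt
  pr : ∀ t ∈ T, t.Prime
  tN : ∀ t ∈ T, ¬ t ∣ Nt
  tD : ∀ t ∈ T, ¬ t ∣ Dt
  t1 : ∀ t ∈ T, ¬ t ∣ W1
  t2 : ∀ t ∈ T, ¬ t ∣ W2
  cN : ∀ t ∈ T, (t : ℤ) ^ m t ∣ (Nt : ℤ) - Dt
  cW : ∀ t ∈ T, (t : ℤ) ∣ (W1 : ℤ) - W2
  rel : ∀ t ∈ T, (t : ℤ) ^ x t ∣ (Nt : ℤ) ^ z0 * (W1 : ℤ) ^ g - (Dt : ℤ) ^ z0 * (W2 : ℤ) ^ g

/-- Thue-Siegel with one anchor (from `H85STAR.core_thm` with `N = 4 n`, `K = 3 M n`,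
`I = M n + 2 M`) -/
def S_PADE : Prop := ∀ (g M n z0 : ℕ) (T : Finset ℕ) (x m : ℕ → ℕ) (Nt Dt W1 W2 : ℕ) (U V : ℝ),
  g.Prime → 0 < z0 → z0 < g → 1 ≤ M → M ≤ g → 2 ≤ n → Apx g z0 T x m Nt Dt W1 W2 →
  (∀ t ∈ T, t ≠ g ∧ 1 ≤ m t ∧ x t ≤ m t * (M * n)) →
  (Nt : ℝ) ≤ Real.exp U → (Dt : ℝ) ≤ Real.exp U → (W1 : ℝ) ≤ Real.exp V → (W2 : ℝ) ≤ Real.exp V →
  ∑ t ∈ T, (x t : ℝ) * Real.log t ≤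
    20 * ((M : ℝ) * n) * Real.log (6 * g) + 4 * n * U + M * V

/-- the case `z0 = 0` -/
def S_ZER : Prop := ∀ (g : ℕ) (T : Finset ℕ) (x m : ℕ → ℕ) (Nt Dt W1 W2 : ℕ) (V : ℝ),
  g.Prime → Apx g 0 T x m Nt Dt W1 W2 → (∀ t ∈ T, t ≠ g) → W1 ≠ W2 →
  (W1 : ℝ) ≤ Real.exp V → (W2 : ℝ) ≤ Real.exp V → ∑ t ∈ T, (x t : ℝ) * Real.log t ≤ V

/-! ## Part B: one free prime -/

/-- pigeonhole over the subsets of `J` solutions -/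
def S_PIG : Prop := ∀ (J g : ℕ) (K T : Finset ℕ) (m : ℕ → ℕ) (r ζ : ℕ → ℕ) (e : ℕ → ℕ → ℤ),
  0 < g → (∀ t ∈ T, t.Prime) → (∀ t ∈ T, ∀ j < J, ¬ t ∣ r j) → (∀ t ∈ T, ∀ q ∈ K, ¬ t ∣ q) →
  2 * g ^ K.card * ∏ t ∈ T, t ^ (m t + 1) < 2 ^ J →
  ∃ (A B : Finset ℕ) (n : ℕ → ℤ), A ⊆ range J ∧ B ⊆ range J ∧ Disjoint A B ∧ (A ∪ B).Nonempty ∧
    Even (A.card + B.card) ∧
    (∀ t ∈ T, (t : ℤ) ^ m t ∣ (∏ j ∈ A, (r j : ℤ)) - ∏ j ∈ B, (r j : ℤ)) ∧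
    (∀ q ∈ K, ∑ j ∈ A, e j q - ∑ j ∈ B, e j q = g * n q) ∧
    ∀ t ∈ T, (t : ℤ) ∣ (∏ j ∈ A, (r j : ℤ) ^ ζ j) * ∏ q ∈ K, (q : ℤ) ^ (-n q).toNat -
      (∏ j ∈ B, (r j : ℤ) ^ ζ j) * ∏ q ∈ K, (q : ℤ) ^ (n q).toNat

/-- identity between products of solutions -/
def S_IDN : Prop := ∀ (g z0 : ℕ) (K A B : Finset ℕ) (r ζ : ℕ → ℕ) (β γ : ℕ → ℕ → ℕ) (n : ℕ → ℤ),
  (∀ q ∈ K, ∑ j ∈ A, ((γ j q : ℤ) - β j q) - ∑ j ∈ B, ((γ j q : ℤ) - β j q) = g * n q) →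
  (∏ j ∈ A, ∏ q ∈ K, q ^ γ j q) * (∏ j ∈ B, (r j ^ (z0 + g * ζ j) * ∏ q ∈ K, q ^ β j q)) *
      ((∏ j ∈ A, r j) ^ z0 * ((∏ j ∈ A, r j ^ ζ j) * ∏ q ∈ K, q ^ (-n q).toNat) ^ g) =
    (∏ j ∈ B, ∏ q ∈ K, q ^ γ j q) * (∏ j ∈ A, (r j ^ (z0 + g * ζ j) * ∏ q ∈ K, q ^ β j q)) *
      ((∏ j ∈ B, r j) ^ z0 * ((∏ j ∈ B, r j ^ ζ j) * ∏ q ∈ K, q ^ (n q).toNat) ^ g)

/-- `v` is a triple of height about `h0`, the primes of its coordinates other than `i` lie in `K`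
except `r`, which divides the coordinate `s1`, and `t ^ x t` divides the coordinate `i` -/
structure SolV (h0 : ℝ) (K : Finset ℕ) (x : ℕ → ℕ) (i s1 : Fin 3) (r : ℕ) (v : ℕ × ℕ) : Prop where
  tri : IsTri v
  lo : h0 ≤ hh v
  up : hh v ≤ 2 * h0
  si : s1 ≠ i
  dv : r ∣ coord v s1
  pf : ∀ s, s ≠ i → (coord v s).primeFactors ⊆ insert r K
  dx : ∀ t ∈ K, t ^ x t ∣ coord v i

/-- approximations from `J` solutions -/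
def S_ALG : Prop := ∀ (J g z0 : ℕ) (K T : Finset ℕ) (x m : ℕ → ℕ) (i s1 : Fin 3) (r : ℕ → ℕ)
  (v : ℕ → ℕ × ℕ) (h0 L : ℝ), 0 < g → (∀ q ∈ K, q.Prime) → T ⊆ K → (∀ t ∈ T, 1 ≤ x t) →
  (∀ j < J, (r j).Prime ∧ r j ∉ K ∧ Real.log (r j) ≤ L ∧ SolV h0 K x i s1 (r j) (v j) ∧
    (coord (v j) s1).factorization (r j) % g = z0) →
  (∀ j < J, ∀ j' < J, r j = r j' → j = j') →
  2 * g ^ K.card * ∏ t ∈ T, t ^ (m t + 1) < 2 ^ J →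
  ∃ Nt Dt W1 W2 : ℕ, Apx g z0 T x m Nt Dt W1 W2 ∧ (z0 = 0 → W1 ≠ W2) ∧
    (Nt : ℝ) ≤ Real.exp (J * L) ∧ (Dt : ℝ) ≤ Real.exp (J * L) ∧
    (W1 : ℝ) ≤ Real.exp (4 * J * h0 / g) ∧ (W2 : ℝ) ≤ Real.exp (4 * J * h0 / g)

/-- choice of the prime `g` -/
def S_GPR : Prop := ∀ (K : Finset ℕ) (x : ℕ → ℕ) (y : ℝ), 1 ≤ y → ∃ g : ℕ, g.Prime ∧ y < g ∧
  (g : ℝ) ≤ 8 * y ∧
  (∑ t ∈ K, (x t : ℝ) * Real.log t) / 2 ≤ ∑ t ∈ K.erase g, (x t : ℝ) * Real.log t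

/-- choice of the parameters -/
def S_NUM : Prop := ∀ δ : ℝ, 0 < δ → δ ≤ 1 → ∃ L0 : ℝ, 1 ≤ L0 ∧ ∀ (L h0 : ℝ) (g : ℕ), L0 ≤ L →
  L ^ 8 ≤ h0 → L ^ 7 < g → (g : ℝ) ≤ 8 * L ^ 7 → ∃ (J M n : ℕ) (lam : ℝ), 0 < lam ∧ 1 ≤ M ∧
    M ≤ g ∧ 2 ≤ n ∧ 3 * (g : ℝ) * J ≤ L ^ 12 ∧
    Real.log 2 + 2 * L * Real.log g + 2 * L * lam + 2 * L < J * Real.log 2 ∧
    2 * h0 ≤ lam * (M * n) ∧
    20 * ((M : ℝ) * n) * Real.log (6 * g) + 4 * n * (J * L) + M * (4 * J * h0 / g) <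
      δ / 2 * h0 ∧
    4 * J * h0 / g < δ / 2 * h0

/-- `Q` is a set of free primes `r` -/
structure StarQ (X h0 δ : ℝ) (K : Finset ℕ) (x : ℕ → ℕ) (i : Fin 3) (Q : Finset ℕ) : Prop where
  pr : ∀ q ∈ K, q.Prime
  le : ((∏ q ∈ K, q : ℕ) : ℝ) ≤ X
  wt : δ * h0 ≤ ∑ t ∈ K, (x t : ℝ) * Real.log t
  rs : ∀ r ∈ Q, r.Prime ∧ r ∉ K ∧ (r : ℝ) ≤ X ∧ ∃ s1 v, SolV h0 K x i s1 r v

/-- STAR LEMMA, large heights -/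
def S_STH : Prop := ∀ δ : ℝ, 0 < δ → δ ≤ 1 → ∃ X0 : ℝ, 1 ≤ X0 ∧
  ∀ (X h0 : ℝ) (K : Finset ℕ) (x : ℕ → ℕ) (i : Fin 3) (Q : Finset ℕ), X0 ≤ X →
  Real.log X ^ 8 ≤ h0 → StarQ X h0 δ K x i Q → (Q.card : ℝ) ≤ Real.log X ^ 12

/-- STAR LEMMA, small heights -/
def S_STL : Prop := ∀ δ ε c : ℝ, 0 < δ → δ ≤ 1 → 0 < ε → 0 < c → ∃ X0 : ℝ, 1 ≤ X0 ∧
  ∀ (X h0 : ℝ) (K : Finset ℕ) (x : ℕ → ℕ) (i : Fin 3) (Q : Finset ℕ), X0 ≤ X →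
  c * Real.log X ^ 2 ≤ h0 → h0 ≤ Real.log X ^ 8 → StarQ X h0 δ K x i Q → (Q.card : ℝ) ≤ X ^ ε

/-- STAR LEMMA -/
def S_STR : Prop := ∀ δ ε c : ℝ, 0 < δ → δ ≤ 1 → 0 < ε → 0 < c → ∃ X0 : ℝ, 1 ≤ X0 ∧
  ∀ (X h0 : ℝ) (K : Finset ℕ) (x : ℕ → ℕ) (i : Fin 3) (Q : Finset ℕ), X0 ≤ X →
  c * Real.log X ^ 2 ≤ h0 → StarQ X h0 δ K x i Q → (Q.card : ℝ) ≤ X ^ ε

/-! ## Part C: counting for a fixed set `K` of known primes -/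

/-- cells -/
def S_CEL : Prop := ∀ δ : ℝ, 0 < δ → δ ≤ 1 → ∃ C : ℝ, 1 ≤ C ∧ ∀ (K : Finset ℕ) (h0 : ℝ),
  (∀ q ∈ K, q.Prime) → 0 < h0 → ∃ Xs : Finset (ℕ → ℕ), (Xs.card : ℝ) ≤ C ^ (K.card + 1) ∧
    ∀ f : ℕ → ℕ, δ * h0 ≤ ∑ t ∈ K, (f t : ℝ) * Real.log t →
      ∑ t ∈ K, (f t : ℝ) * Real.log t ≤ 2 * h0 →
      ∃ x ∈ Xs, (∀ t ∈ K, x t ≤ f t) ∧ δ / 2 * h0 ≤ ∑ t ∈ K, (x t : ℝ) * Real.log t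

/-- dyadic windows -/
def S_WIN : Prop := ∀ (F : Finset (ℕ × ℕ)) (c0 H B : ℝ), 1 ≤ c0 → 1 ≤ H → 0 ≤ B →
  (∀ v ∈ F, c0 ≤ hh v ∧ hh v ≤ H) →
  (∀ h0, c0 ≤ h0 → ((F.filter (fun v => h0 ≤ hh v ∧ hh v ≤ 2 * h0)).card : ℝ) ≤ B) →
  (F.card : ℝ) ≤ 2 * B * (1 + Real.log H)

/-- `K` contains primes of weight `δ` of one coordinate, and all primes of the two other
coordinates except one prime `r` -/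
def StarV (δ : ℝ) (K : Finset ℕ) (v : ℕ × ℕ) : Prop :=
  ∃ (i s1 : Fin 3) (r : ℕ), s1 ≠ i ∧ r.Prime ∧ r ∉ K ∧ r ∣ coord v s1 ∧
    (∀ s, s ≠ i → (coord v s).primeFactors ⊆ insert r K) ∧ δ * hh v ≤ kl K (coord v i)

/-- triples with a given set `K` of known primes of star type -/
def S_STK : Prop := ∀ δ ε c : ℝ, 0 < δ → δ ≤ 1 → 0 < ε → 0 < c → ∃ C X0 : ℝ, 1 ≤ C ∧ 1 ≤ X0 ∧
  ∀ (X H : ℝ) (K : Finset ℕ) (F : Finset (ℕ × ℕ)), X0 ≤ X → 1 ≤ H → (∀ q ∈ K, q.Prime) →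
  ((∏ q ∈ K, q : ℕ) : ℝ) ≤ X →
  (∀ v ∈ F, IsTri v ∧ (RR v : ℝ) ≤ X ∧ c * Real.log X ^ 2 ≤ hh v ∧ hh v ≤ H ∧ StarV δ K v) →
  (F.card : ℝ) ≤ C ^ (K.card + 1) * X ^ ε * (1 + Real.log H)

/-! ## Part D: choice of `K` and assembly -/

/-- the largest prime factor (`0` if there is none; note `Real.log 0 = 0`) -/
def lp (n : ℕ) : ℕ := n.primeFactors.sup id

/-- greedy choice of primes of weight `θ` in one coordinate -/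
def S_GRD : Prop := ∀ (n : ℕ) (θ : ℝ), 0 < n → 0 ≤ θ → θ ≤ 1 → ∃ T ⊆ n.primeFactors,
  θ * Real.log n ≤ kl T n ∧
    Real.log ((∏ q ∈ T, q : ℕ) : ℝ) ≤ θ * Real.log (rad n) + Real.log (lp n)

/-- the star option -/
def S_SOP : Prop := ∀ (v : ℕ × ℕ) (i j k : Fin 3) (θ : ℝ), IsTri v → 3 ≤ v.1 + v.2 →
  i ≠ j → i ≠ k → j ≠ k → 0 ≤ θ → θ ≤ 1 →
  ∃ K ⊆ (nn v).primeFactors, ∃ (s1 : Fin 3) (r : ℕ), s1 ≠ i ∧ r.Prime ∧ r ∉ K ∧ r ∣ coord v s1 ∧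
    (∀ s, s ≠ i → (coord v s).primeFactors ⊆ insert r K) ∧
    θ * Real.log (coord v i) ≤ kl K (coord v i) ∧
    Real.log ((∏ q ∈ K, q : ℕ) : ℝ) ≤ Real.log (rad (coord v j)) + Real.log (rad (coord v k)) -
      max (Real.log (lp (coord v j))) (Real.log (lp (coord v k))) + Real.log (lp (coord v i)) +
      θ * Real.log (rad (coord v i))

/-- the gap option -/
def S_GOP : Prop := ∀ (v : ℕ × ℕ) (i j : Fin 3) (θ : ℝ), IsTri v → i ≠ j → 0 ≤ θ → θ ≤ 1 →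
  ∃ K ⊆ (nn v).primeFactors,
    Real.log (coord v i) + θ * Real.log (coord v j) +
      (hh v - Real.log ((min v.1 v.2 : ℕ) : ℝ)) ≤ mass K v ∧
    Real.log ((∏ q ∈ K, q : ℕ) : ℝ) ≤ Real.log (rad (coord v i)) + Real.log (lp (coord v j)) +
      θ * Real.log (rad (coord v j))

/-- choice of the known primes -/
def S_OPT : Prop := ∀ ε : ℝ, 0 < ε → ε ≤ 1 → ∃ δ h1 : ℝ, 0 < δ ∧ δ ≤ 1 ∧ 1 ≤ h1 ∧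
  ∀ (X Y : ℝ) (v : ℕ × ℕ), 1 ≤ X → 1 ≤ Y → IsTri v → (RR v : ℝ) ≤ X →
    (∃ i, (rad (coord v i) : ℝ) ≤ Y) → h1 ≤ hh v →
    ∃ K ⊆ (nn v).primeFactors, ((∏ q ∈ K, q : ℕ) : ℝ) ≤ X ^ ε * Real.sqrt (X * Y) ∧
      ((2 + δ) * hh v ≤ mass K v ∨ StarV δ K v)

/-- triples of small height -/
def S_LOH : Prop := ∃ C : ℝ, 1 ≤ C ∧ ∀ (X Y h : ℝ) (F : Finset (ℕ × ℕ)), 1 ≤ X → 1 ≤ Y → 1 ≤ h →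
  (∀ v ∈ F, IsTri v ∧ (RR v : ℝ) ≤ X ∧ (∃ i, (rad (coord v i) : ℝ) ≤ Y) ∧ hh v ≤ h) →
  (F.card : ℝ) ≤ 9 * Real.sqrt (X * Y) * Real.exp (C * Real.sqrt h)

/-- summation over `K` -/
def S_SUM : Prop := ∀ C : ℝ, 1 ≤ C → ∃ D : ℝ, 1 ≤ D ∧ ∀ (Z B : ℝ) (F : Finset (ℕ × ℕ))
  (Kf : ℕ × ℕ → Finset ℕ), 1 ≤ Z → 0 ≤ B →
  (∀ v ∈ F, (∀ q ∈ Kf v, q.Prime) ∧ ((∏ q ∈ Kf v, q : ℕ) : ℝ) ≤ Z) →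
  (∀ K : Finset ℕ, ((F.filter (fun v => Kf v = K)).card : ℝ) ≤ C ^ (K.card + 1) * B) →
  (F.card : ℝ) ≤ D * Z * (1 + Real.log Z) ^ D * B

/-- MAIN THEOREM, upper bound -/
def S_UPP : Prop := ∀ ε : ℝ, 0 < ε → ∃ C : ℝ, 1 ≤ C ∧
  ∀ (X H Y : ℝ) (F : Finset (ℕ × ℕ)), 1 ≤ X → 1 ≤ H → 1 ≤ Y →
    (∀ v ∈ F, IsTri v ∧ (RR v : ℝ) ≤ X ∧ (∃ i, (rad (coord v i) : ℝ) ≤ Y) ∧ hh v ≤ H) →
    (F.card : ℝ) ≤ C * X ^ ε * Real.sqrt (X * Y) * (1 + Real.log H)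

end Pool.ALLH
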